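import Pool.Agent.H950.ON.St

/-!
O10: translation invariance of the loop O(n) model in the domains between two graphs.
-/

set_option autoImplicit false

namespace Pool.Agent.H788.ONs

open Pool.Agent.X136.ON Pool.Agent.H950.ON

/-- translation of the hexagons -/
def th (v : ℤ × ℤ) : Hx ≃ Hx where
  toFun u := (u.1 + v.1, u.2 + v.2)
  invFun u := (u.1 - v.1, u.2 - v.2)
  left_inv u := by ext <;> simp
  right_inv u := by ext <;> simp

/-- translation of the vertices -/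
def tx (v : ℤ × ℤ) : Vx ≃ Vx where
  toFun u := (u.1 + v.1, u.2.1 + v.2, u.2.2)
  invFun u := (u.1 - v.1, u.2.1 - v.2, u.2.2)
  left_inv u := by ext <;> simp
  right_inv u := by ext <;> simp

/-- translation of the edges -/
def te (v : ℤ × ℤ) : Ed ≃ Ed where
  toFun e := (e.1 + v.1, e.2.1 + v.2, e.2.2)
  invFun e := (e.1 - v.1, e.2.1 - v.2, e.2.2)
  left_inv e := by ext <;> simp
  right_inv e := by ext <;> simp

section

variable (v : ℤ × ℤ)

theorem th_apply (u : Hx) : th v u = (u.1 + v.1, u.2 + v.2) := rfl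

theorem up_te (e : Ed) : up (te v e) = tx v (up e) := rfl

theorem dn_te (e : Ed) : dn (te v e) = tx v (dn e) := by
  obtain ⟨i, j, k⟩ := e
  cases k
  · show ((i + v.1, j + v.2 - 1, true) : Vx) = (i + v.1, j - 1 + v.2, true)
    rw [show j + v.2 - 1 = j - 1 + v.2 by ring]
  · show ((i + v.1 - 1, j + v.2, true) : Vx) = (i - 1 + v.1, j + v.2, true)
    rw [show i + v.1 - 1 = i - 1 + v.1 by ring]
  · rfl

theorem s1_te (e : Ed) : s1 (te v e) = th v (s1 e) := by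
  obtain ⟨i, j, k⟩ := e
  cases k
  · rfl
  · rfl
  · show ((i + v.1 + 1, j + v.2) : Hx) = (i + 1 + v.1, j + v.2)
    rw [show i + v.1 + 1 = i + 1 + v.1 by ring]

theorem s2_te (e : Ed) : s2 (te v e) = th v (s2 e) := by
  obtain ⟨i, j, k⟩ := e
  cases k
  · show ((i + v.1 + 1, j + v.2) : Hx) = (i + 1 + v.1, j + v.2)
    rw [show i + v.1 + 1 = i + 1 + v.1 by ring]
  · show ((i + v.1, j + v.2 + 1) : Hx) = (i + v.1, j + 1 + v.2)
    rw [show j + v.2 + 1 = j + 1 + v.2 by ring]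
  · show ((i + v.1, j + v.2 + 1) : Hx) = (i + v.1, j + 1 + v.2)
    rw [show j + v.2 + 1 = j + 1 + v.2 by ring]

theorem rtg_eq {α β : Type*} (t : α ≃ β) {R : α → α → Prop} {R' : β → β → Prop}
    (h : ∀ u w, R u w ↔ R' (t u) (t w)) (u w : α) :
    Relation.ReflTransGen R u w ↔ Relation.ReflTransGen R' (t u) (t w) := by
  constructor
  · intro h1
    induction h1 with
    | refl => exact Relation.ReflTransGen.refl
    | tail _ h2 ih => exact ih.tail ((h _ _).1 h2)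
  · intro h1
    obtain ⟨w', hw'⟩ : ∃ w', w' = t w := ⟨_, rfl⟩
    rw [← hw'] at h1
    induction h1 generalizing w with
    | refl =>
      rw [t.injective hw']
    | @tail b c _ h2 ih =>
      obtain ⟨b', rfl⟩ := t.surjective b
      rw [hw'] at h2
      exact (ih b' rfl).tail ((h _ _).2 h2)

theorem nbr_th (f g : Hx) : Nbr f g ↔ Nbr (th v f) (th v g) := by
  constructor
  · rintro ⟨e, hor⟩
    refine ⟨te v e, ?_⟩
    rw [s1_te, s2_te]
    rcases hor with ⟨h1, h2⟩ | ⟨h1, h2⟩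
    · exact Or.inl ⟨by rw [h1], by rw [h2]⟩
    · exact Or.inr ⟨by rw [h1], by rw [h2]⟩
  · rintro ⟨e', hor⟩
    obtain ⟨e, rfl⟩ := (te v).surjective e'
    refine ⟨e, ?_⟩
    rw [s1_te, s2_te] at hor
    rcases hor with ⟨h1, h2⟩ | ⟨h1, h2⟩
    · exact Or.inl ⟨(th v).injective h1, (th v).injective h2⟩
    · exact Or.inr ⟨(th v).injective h1, (th v).injective h2⟩

theorem con_th {A A' : Set Hx} (h : ∀ u, u ∈ A ↔ th v u ∈ A') (f g : Hx) :
    Con A f g ↔ Con A' (th v f) (th v g) := by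
  unfold Pool.Agent.H950.ON.Con
  apply rtg_eq (th v)
  intro u w
  rw [← nbr_th v u w, h u, h w]

theorem nb_te {S S' : Set Ed} (h : ∀ e, e ∈ S ↔ te v e ∈ S') (u w : Vx) :
    Nb S u w ↔ Nb S' (tx v u) (tx v w) := by
  constructor
  · rintro ⟨e, he, hor⟩
    refine ⟨te v e, (h e).1 he, ?_⟩
    rw [up_te, dn_te]
    rcases hor with ⟨h1, h2⟩ | ⟨h1, h2⟩
    · exact Or.inl ⟨by rw [h1], by rw [h2]⟩
    · exact Or.inr ⟨by rw [h1], by rw [h2]⟩
  · rintro ⟨e', he', hor⟩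
    obtain ⟨e, rfl⟩ := (te v).surjective e'
    refine ⟨e, (h e).2 he', ?_⟩
    rw [up_te, dn_te] at hor
    rcases hor with ⟨h1, h2⟩ | ⟨h1, h2⟩
    · exact Or.inl ⟨(tx v).injective h1, (tx v).injective h2⟩
    · exact Or.inr ⟨(tx v).injective h1, (tx v).injective h2⟩

theorem joined_te {S S' : Set Ed} (h : ∀ e, e ∈ S ↔ te v e ∈ S') (u w : Vx) :
    Joined S u w ↔ Joined S' (tx v u) (tx v w) := by
  unfold Pool.Agent.X136.ON.Joined
  exact rtg_eq (tx v) (nb_te v h) u w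

theorem inc_te (u : Vx) (e : Ed) : Inc u e ↔ Inc (tx v u) (te v e) := by
  unfold Inc
  rw [up_te, dn_te, (tx v).injective.eq_iff, (tx v).injective.eq_iff]

variable (D : TD)

theorem mem_W (u : Hx) : th v u ∈ (D.shift v).W ↔ u ∈ D.W := by
  show u.1 + v.1 ≤ D.w (u.2 + v.2 - v.2) + v.1 ↔ u.1 ≤ D.w u.2
  rw [add_sub_cancel_right]
  constructor <;> intro h <;> omega

theorem mem_Z (u : Hx) : th v u ∈ (D.shift v).Z ↔ u ∈ D.Z := by
  show D.z (u.2 + v.2 - v.2) + v.1 ≤ u.1 + v.1 ↔ D.z u.2 ≤ u.1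
  rw [add_sub_cancel_right]
  constructor <;> intro h <;> omega

theorem mem_ins' (u : Hx) : th v u ∈ (D.shift v).ins ↔ u ∈ D.ins := by
  rw [TD.mem_ins, TD.mem_ins, mem_W, mem_Z]

theorem mem_ES (e : Ed) : te v e ∈ (D.shift v).ES ↔ e ∈ D.ES := by
  show ((D.lo + v.2 ≤ (s1 (te v e)).2 ∧ (s1 (te v e)).2 ≤ D.hi + v.2) ∧
    (D.lo + v.2 ≤ (s2 (te v e)).2 ∧ (s2 (te v e)).2 ≤ D.hi + v.2) ∧
    ¬ (s1 (te v e) ∈ (D.shift v).W ∧ s2 (te v e) ∈ (D.shift v).W) ∧
    ¬ (s1 (te v e) ∈ (D.shift v).Z ∧ s2 (te v e) ∈ (D.shift v).Z)) ↔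
    ((D.lo ≤ (s1 e).2 ∧ (s1 e).2 ≤ D.hi) ∧
    (D.lo ≤ (s2 e).2 ∧ (s2 e).2 ≤ D.hi) ∧
    ¬ (s1 e ∈ D.W ∧ s2 e ∈ D.W) ∧
    ¬ (s1 e ∈ D.Z ∧ s2 e ∈ D.Z))
  rw [s1_te, s2_te, mem_W, mem_W, mem_Z, mem_Z]
  show ((D.lo + v.2 ≤ (s1 e).2 + v.2 ∧ (s1 e).2 + v.2 ≤ D.hi + v.2) ∧
    (D.lo + v.2 ≤ (s2 e).2 + v.2 ∧ (s2 e).2 + v.2 ≤ D.hi + v.2) ∧
    ¬ (s1 e ∈ D.W ∧ s2 e ∈ D.W) ∧
    ¬ (s1 e ∈ D.Z ∧ s2 e ∈ D.Z)) ↔ _
  rw [add_le_add_iff_right, add_le_add_iff_right, add_le_add_iff_right, add_le_add_iff_right]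

theorem mem_E' (e : Ed) : te v e ∈ (D.shift v).E ↔ e ∈ D.E := by
  rw [TD.mem_E, TD.mem_E, mem_ES]

theorem a_shift : (D.shift v).a = tx v D.a := by
  show ((D.w (D.hi + v.2 - v.2) + v.1, D.hi + v.2, false) : Vx) = (D.w D.hi + v.1, D.hi + v.2, false)
  rw [add_sub_cancel_right]

/-- translation of the colourings -/
def tf : Finset Hx ≃ Finset Hx := Equiv.finsetCongr (th v)

theorem mem_tf (F : Finset Hx) (h : Hx) : th v h ∈ tf v F ↔ h ∈ F := by
  rw [tf, Equiv.finsetCongr_apply]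
  exact Finset.mem_map' _

/-- translation of the sets of edges -/
def tE : Finset Ed ≃ Finset Ed := Equiv.finsetCongr (te v)

theorem mem_tE (F : Finset Ed) (e : Ed) : te v e ∈ tE v F ↔ e ∈ F := by
  rw [tE, Equiv.finsetCongr_apply]
  exact Finset.mem_map' _

theorem mem_pl (F : Finset Hx) (h : Hx) : h ∈ D.pl F ↔ th v h ∈ (D.shift v).pl (tf v F) := by
  show (h ∈ D.W ∨ h ∈ F) ↔ (th v h ∈ (D.shift v).W ∨ th v h ∈ tf v F)
  rw [mem_tf, mem_W]

theorem om_tf (F : Finset Hx) : (D.shift v).om (tf v F) = tE v (D.om F) := by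
  ext e'
  obtain ⟨e, rfl⟩ := (te v).surjective e'
  rw [mem_tE]
  classical
  unfold TD.om
  rw [Finset.mem_filter, Finset.mem_filter, mem_E', s1_te, s2_te, ← mem_pl, ← mem_pl]

theorem loops_tE (ω : Finset Ed) (a : Vx) : loops (tE v ω) (tx v a) = loops ω a := by
  unfold loops
  have hm : ∀ e, e ∈ (↑ω : Set Ed) ↔ te v e ∈ (↑(tE v ω) : Set Ed) := fun e => by
    rw [Finset.mem_coe, Finset.mem_coe, mem_tE]
  have h : {C : Set Vx | ∃ u, (∃ e ∈ tE v ω, Inc u e) ∧ ¬ Joined ↑(tE v ω) (tx v a) u ∧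
      C = {w | Joined ↑(tE v ω) u w}} =
      (fun K => (tx v) '' K) '' {C : Set Vx | ∃ u, (∃ e ∈ ω, Inc u e) ∧ ¬ Joined ↑ω a u ∧
        C = {w | Joined ↑ω u w}} := by
    ext K
    constructor
    · rintro ⟨u', ⟨e', he', hi'⟩, hj', rfl⟩
      obtain ⟨u, rfl⟩ := (tx v).surjective u'
      obtain ⟨e, rfl⟩ := (te v).surjective e'
      refine ⟨{w | Joined ↑ω u w}, ⟨u, ⟨e, (mem_tE v ω e).1 he', (inc_te v u e).2 hi'⟩,
        fun h => hj' ((joined_te v hm a u).1 h), rfl⟩, ?_⟩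
      ext w'
      obtain ⟨w, rfl⟩ := (tx v).surjective w'
      constructor
      · rintro ⟨w2, hw2, h2⟩
        rw [← (tx v).injective h2]
        exact (joined_te v hm u w2).1 hw2
      · intro hw
        exact ⟨w, (joined_te v hm u w).2 hw, rfl⟩
    · rintro ⟨K', ⟨u, ⟨e, he, hi⟩, hj, rfl⟩, rfl⟩
      refine ⟨tx v u, ⟨te v e, (mem_tE v ω e).2 he, (inc_te v u e).1 hi⟩,
        fun h => hj ((joined_te v hm a u).2 h), ?_⟩
      ext w'
      obtain ⟨w, rfl⟩ := (tx v).surjective w'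
      constructor
      · rintro ⟨w2, hw2, h2⟩
        rw [← (tx v).injective h2]
        exact (joined_te v hm u w2).1 hw2
      · intro hw
        exact ⟨w, (joined_te v hm u w).2 hw, rfl⟩
  rw [h, Set.ncard_image_of_injective _ (tx v).injective.image_injective]

theorem wt_tf (n x : ℝ) (F : Finset Hx) : (D.shift v).wt n x (tf v F) = D.wt n x F := by
  unfold TD.wt weight
  rw [om_tf, a_shift, loops_tE, tE, Equiv.finsetCongr_apply, Finset.card_map]

theorem mem_pow (F : Finset Hx) : F ∈ D.ins.powerset ↔ tf v F ∈ (D.shift v).ins.powerset := by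
  rw [Finset.mem_powerset, Finset.mem_powerset]
  constructor
  · intro h e' he'
    obtain ⟨e, rfl⟩ := (th v).surjective e'
    exact (mem_ins' v D e).2 (h ((mem_tf v F e).1 he'))
  · intro h e he
    exact (mem_ins' v D e).1 (h ((mem_tf v F e).2 he))

theorem mu_tf (n x : ℝ) (F : Finset Hx) : (D.shift v).mu n x (tf v F) = D.mu n x F := by
  unfold TD.mu
  rw [wt_tf]
  have h : ∑ G ∈ D.ins.powerset, D.wt n x G =
      ∑ G ∈ (D.shift v).ins.powerset, (D.shift v).wt n x G :=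
    Finset.sum_equiv (tf v) (fun G => mem_pow v D G) (fun G _ => (wt_tf v D n x G).symm)
  rw [h]

theorem P_tf (n x : ℝ) (A A' : Finset Hx → Prop) (h : ∀ F, A F ↔ A' (tf v F)) :
    (D.shift v).P n x A' = D.P n x A := by
  unfold TD.P
  symm
  refine Finset.sum_equiv (tf v) (fun G => mem_pow v D G) (fun G _ => ?_)
  by_cases hA : A G
  · rw [if_pos hA, if_pos ((h G).1 hA), mu_tf]
  · rw [if_neg hA, if_neg (fun h2 => hA ((h G).2 h2))]

theorem mem_C (F : Finset Hx) (u : Hx) : u ∈ D.C F ↔ th v u ∈ (D.shift v).C (tf v F) := by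
  constructor
  · rintro ⟨w, hw, h⟩
    exact ⟨th v w, (mem_W v D w).2 hw, (con_th v (mem_pl v D F) w u).1 h⟩
  · rintro ⟨w', hw', h⟩
    obtain ⟨w, rfl⟩ := (th v).surjective w'
    exact ⟨w, (mem_W v D w).1 hw', (con_th v (mem_pl v D F) w u).2 h⟩

theorem mem_Cc (F : Finset Hx) (u : Hx) :
    u ∈ (D.C F)ᶜ ↔ th v u ∈ ((D.shift v).C (tf v F))ᶜ := by
  rw [Set.mem_compl_iff, Set.mem_compl_iff, mem_C v D F u]

theorem mem_R (F : Finset Hx) (u : Hx) : u ∈ D.R F ↔ th v u ∈ (D.shift v).R (tf v F) := by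
  show (¬ ∃ w ∈ D.Z, Con (D.C F)ᶜ w u) ↔
    ¬ ∃ w ∈ (D.shift v).Z, Con ((D.shift v).C (tf v F))ᶜ w (th v u)
  apply not_congr
  constructor
  · rintro ⟨w, hw, h⟩
    exact ⟨th v w, (mem_Z v D w).2 hw, (con_th v (mem_Cc v D F) w u).1 h⟩
  · rintro ⟨w', hw', h⟩
    obtain ⟨w, rfl⟩ := (th v).surjective w'
    exact ⟨w, (mem_Z v D w).1 hw', (con_th v (mem_Cc v D F) w u).2 h⟩

end

/-- **O10.** Translation invariance of the loop O(n) model. -/
theorem t_shift : Pool.Agent.H950.ON.S_shift := by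
  intro D v n x z r
  constructor
  · apply P_tf
    intro F
    constructor
    · rintro ⟨u, hu, h1, h2⟩
      refine ⟨th v u, (mem_R v D F u).1 hu, ?_⟩
      simp only at h1 h2
      rw [th_apply]
      constructor <;> constructor <;> omega
    · rintro ⟨u', hu', h1, h2⟩
      obtain ⟨u, rfl⟩ := (th v).surjective u'
      rw [th_apply] at h1 h2
      refine ⟨u, (mem_R v D F u).2 hu', ?_⟩
      simp only at h1 h2 ⊢
      constructor <;> constructor <;> omega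
  · apply P_tf
    intro F
    constructor
    · rintro ⟨u, hu, h1, h2⟩
      refine ⟨th v u, fun h => hu ((mem_R v D F u).2 h), ?_⟩
      simp only at h1 h2
      rw [th_apply]
      constructor <;> constructor <;> omega
    · rintro ⟨u', hu', h1, h2⟩
      obtain ⟨u, rfl⟩ := (th v).surjective u'
      rw [th_apply] at h1 h2
      refine ⟨u, fun h => hu' ((mem_R v D F u).1 h), ?_⟩
      simp only at h1 h2 ⊢
      constructor <;> constructor <;> omega

end Pool.Agent.H788.ONs
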